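import Pool.Agent.H240.GU.Def5

/-!
# GV-7: uniform bounds of the derivatives of the metric in the collars
-/

set_option autoImplicit false
set_option linter.unusedSectionVars false
set_option linter.unusedVariables false

open Set Filter Topology MeasureTheory
open scoped ContDiff ComplexConjugate Real

noncomputable section

namespace Pool.Agent.H355.GV

open Pool.Agent.Y262.EG Pool.Agent.H240.AL Pool.Agent.H240.GU Pool.Agent.H240.GV

variable {ι : Type}

/-- smooth and uniformly bounded -/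
def B0 (S : ι → Set ℂ) (F : ι → ℂ → ℝ) : Prop :=
  (∀ i, ContDiffOn ℝ ∞ (F i) (S i)) ∧ ∃ C : ℝ, ∀ i, ∀ z ∈ S i, |F i z| ≤ C

/-- smooth with uniformly bounded derivatives up to the order `k` -/
def BB (S : ι → Set ℂ) : ℕ → (ι → ℂ → ℝ) → Prop
  | 0, F => B0 S F
  | k + 1, F => B0 S F ∧ BB S k (fun i => px (F i)) ∧ BB S k (fun i => py (F i))

lemma BB.b0 {S : ι → Set ℂ} {k : ℕ} {F : ι → ℂ → ℝ} (h : BB S k F) : B0 S F := by
  cases k with
  | zero => exact h
  | succ k => exact h.1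

lemma BB.pred {S : ι → Set ℂ} {k : ℕ} : ∀ {F : ι → ℂ → ℝ}, BB S (k + 1) F → BB S k F := by
  induction k with
  | zero => intro F h; exact h.1
  | succ k ih => intro F h; exact ⟨h.1, ih h.2.1, ih h.2.2⟩

lemma px_congr {S : Set ℂ} (hS : IsOpen S) {f g : ℂ → ℝ} (h : ∀ z ∈ S, f z = g z) {z : ℂ}
    (hz : z ∈ S) : px f z = px g z := by
  have : f =ᶠ[𝓝 z] g := by
    filter_upwards [hS.mem_nhds hz] with w hw using h w hw
  unfold px
  rw [this.fderiv_eq]

lemma py_congr {S : Set ℂ} (hS : IsOpen S) {f g : ℂ → ℝ} (h : ∀ z ∈ S, f z = g z) {z : ℂ}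
    (hz : z ∈ S) : py f z = py g z := by
  have : f =ᶠ[𝓝 z] g := by
    filter_upwards [hS.mem_nhds hz] with w hw using h w hw
  unfold py
  rw [this.fderiv_eq]

lemma BB.congr {S : ι → Set ℂ} (hS : ∀ i, IsOpen (S i)) {k : ℕ} :
    ∀ {F G : ι → ℂ → ℝ}, (∀ i, ∀ z ∈ S i, F i z = G i z) → BB S k F → BB S k G := by
  have hb : ∀ {F G : ι → ℂ → ℝ}, (∀ i, ∀ z ∈ S i, F i z = G i z) → B0 S F → B0 S G := by
    intro F G h hF
    refine ⟨fun i => (hF.1 i).congr fun z hz => (h i z hz).symm, ?_⟩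
    obtain ⟨C, hC⟩ := hF.2
    exact ⟨C, fun i z hz => by rw [← h i z hz]; exact hC i z hz⟩
  induction k with
  | zero => intro F G h hF; exact hb h hF
  | succ k ih =>
    intro F G h hF
    exact ⟨hb h hF.1, ih (fun i z hz => px_congr (hS i) (h i) hz) hF.2.1,
      ih (fun i z hz => py_congr (hS i) (h i) hz) hF.2.2⟩

lemma cd_at {S : Set ℂ} (hS : IsOpen S) {f : ℂ → ℝ} (h : ContDiffOn ℝ ∞ f S) {z : ℂ}
    (hz : z ∈ S) : DifferentiableAt ℝ f z :=
  ((h z hz).contDiffAt (hS.mem_nhds hz)).differentiableAt (by simp)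

lemma cd_px {S : Set ℂ} (hS : IsOpen S) {f : ℂ → ℝ} (h : ContDiffOn ℝ ∞ f S) :
    ContDiffOn ℝ ∞ (px f) S :=
  (h.fderiv_of_isOpen (m := ∞) hS (by simp)).clm_apply contDiffOn_const

lemma cd_py {S : Set ℂ} (hS : IsOpen S) {f : ℂ → ℝ} (h : ContDiffOn ℝ ∞ f S) :
    ContDiffOn ℝ ∞ (py f) S :=
  (h.fderiv_of_isOpen (m := ∞) hS (by simp)).clm_apply contDiffOn_const

lemma px_add {f g : ℂ → ℝ} {z : ℂ} (hf : DifferentiableAt ℝ f z) (hg : DifferentiableAt ℝ g z) :
    px (fun w => f w + g w) z = px f z + px g z := by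
  unfold px; rw [fderiv_fun_add hf hg]; rfl

lemma py_add {f g : ℂ → ℝ} {z : ℂ} (hf : DifferentiableAt ℝ f z) (hg : DifferentiableAt ℝ g z) :
    py (fun w => f w + g w) z = py f z + py g z := by
  unfold py; rw [fderiv_fun_add hf hg]; rfl

lemma px_mul {f g : ℂ → ℝ} {z : ℂ} (hf : DifferentiableAt ℝ f z) (hg : DifferentiableAt ℝ g z) :
    px (fun w => f w * g w) z = px f z * g z + f z * px g z := by
  unfold px; rw [fderiv_fun_mul hf hg]
  simp only [FunLike.coe_add, FunLike.coe_smul, Pi.add_apply, Pi.smul_apply, smul_eq_mul]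
  ring

lemma py_mul {f g : ℂ → ℝ} {z : ℂ} (hf : DifferentiableAt ℝ f z) (hg : DifferentiableAt ℝ g z) :
    py (fun w => f w * g w) z = py f z * g z + f z * py g z := by
  unfold py; rw [fderiv_fun_mul hf hg]
  simp only [FunLike.coe_add, FunLike.coe_smul, Pi.add_apply, Pi.smul_apply, smul_eq_mul]
  ring

lemma px_neg {f : ℂ → ℝ} {z : ℂ} : px (fun w => - f w) z = - px f z := by
  unfold px; rw [fderiv_fun_neg]; rfl

lemma py_neg {f : ℂ → ℝ} {z : ℂ} : py (fun w => - f w) z = - py f z := by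
  unfold py; rw [fderiv_fun_neg]; rfl

lemma px_inv {f : ℂ → ℝ} {z : ℂ} (hf : DifferentiableAt ℝ f z) (h0 : f z ≠ 0) :
    px (fun w => (f w)⁻¹) z = - (px f z * ((f z)⁻¹ * (f z)⁻¹)) := by
  have h := (hasDerivAt_inv h0).comp_hasFDerivAt z hf.hasFDerivAt
  have h' : fderiv ℝ (fun w => (f w)⁻¹) z = -(f z ^ 2)⁻¹ • fderiv ℝ f z := h.fderiv
  unfold px; rw [h']
  simp only [FunLike.coe_smul, Pi.smul_apply, smul_eq_mul]
  field_simp

lemma py_inv {f : ℂ → ℝ} {z : ℂ} (hf : DifferentiableAt ℝ f z) (h0 : f z ≠ 0) :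
    py (fun w => (f w)⁻¹) z = - (py f z * ((f z)⁻¹ * (f z)⁻¹)) := by
  have h := (hasDerivAt_inv h0).comp_hasFDerivAt z hf.hasFDerivAt
  have h' : fderiv ℝ (fun w => (f w)⁻¹) z = -(f z ^ 2)⁻¹ • fderiv ℝ f z := h.fderiv
  unfold py; rw [h']
  simp only [FunLike.coe_smul, Pi.smul_apply, smul_eq_mul]
  field_simp

lemma BB.add {S : ι → Set ℂ} (hS : ∀ i, IsOpen (S i)) {k : ℕ} :
    ∀ {F G : ι → ℂ → ℝ}, BB S k F → BB S k G → BB S k (fun i z => F i z + G i z) := by
  have hb : ∀ {F G : ι → ℂ → ℝ}, B0 S F → B0 S G → B0 S (fun i z => F i z + G i z) := by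
    intro F G hF hG
    obtain ⟨C, hC⟩ := hF.2
    obtain ⟨D, hD⟩ := hG.2
    exact ⟨fun i => (hF.1 i).add (hG.1 i), C + D, fun i z hz =>
      (abs_add_le _ _).trans (add_le_add (hC i z hz) (hD i z hz))⟩
  induction k with
  | zero => intro F G hF hG; exact hb hF hG
  | succ k ih =>
    intro F G hF hG
    refine ⟨hb hF.1 hG.1, ?_, ?_⟩
    · exact (ih hF.2.1 hG.2.1).congr hS fun i z hz =>
        (px_add (cd_at (hS i) (hF.1.1 i) hz) (cd_at (hS i) (hG.1.1 i) hz)).symm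
    · exact (ih hF.2.2 hG.2.2).congr hS fun i z hz =>
        (py_add (cd_at (hS i) (hF.1.1 i) hz) (cd_at (hS i) (hG.1.1 i) hz)).symm

lemma BB.neg {S : ι → Set ℂ} (hS : ∀ i, IsOpen (S i)) {k : ℕ} :
    ∀ {F : ι → ℂ → ℝ}, BB S k F → BB S k (fun i z => - F i z) := by
  have hb : ∀ {F : ι → ℂ → ℝ}, B0 S F → B0 S (fun i z => - F i z) := by
    intro F hF
    obtain ⟨C, hC⟩ := hF.2
    exact ⟨fun i => (hF.1 i).neg, C, fun i z hz => by rw [abs_neg]; exact hC i z hz⟩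
  induction k with
  | zero => intro F hF; exact hb hF
  | succ k ih =>
    intro F hF
    refine ⟨hb hF.1, ?_, ?_⟩
    · exact (ih hF.2.1).congr hS fun i z hz => px_neg.symm
    · exact (ih hF.2.2).congr hS fun i z hz => py_neg.symm

lemma BB.mul {S : ι → Set ℂ} (hS : ∀ i, IsOpen (S i)) {k : ℕ} :
    ∀ {F G : ι → ℂ → ℝ}, BB S k F → BB S k G → BB S k (fun i z => F i z * G i z) := by
  have hb : ∀ {F G : ι → ℂ → ℝ}, B0 S F → B0 S G → B0 S (fun i z => F i z * G i z) := by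
    intro F G hF hG
    obtain ⟨C, hC⟩ := hF.2
    obtain ⟨D, hD⟩ := hG.2
    refine ⟨fun i => (hF.1 i).mul (hG.1 i), C * D, fun i z hz => ?_⟩
    rw [abs_mul]
    exact mul_le_mul (hC i z hz) (hD i z hz) (abs_nonneg _) ((abs_nonneg _).trans (hC i z hz))
  induction k with
  | zero => intro F G hF hG; exact hb hF hG
  | succ k ih =>
    intro F G hF hG
    refine ⟨hb hF.1 hG.1, ?_, ?_⟩
    · exact ((ih hF.2.1 hG.pred).add hS (ih hF.pred hG.2.1)).congr hS fun i z hz =>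
        (px_mul (cd_at (hS i) (hF.1.1 i) hz) (cd_at (hS i) (hG.1.1 i) hz)).symm
    · exact ((ih hF.2.2 hG.pred).add hS (ih hF.pred hG.2.2)).congr hS fun i z hz =>
        (py_mul (cd_at (hS i) (hF.1.1 i) hz) (cd_at (hS i) (hG.1.1 i) hz)).symm

lemma BB.inv {S : ι → Set ℂ} (hS : ∀ i, IsOpen (S i)) {F : ι → ℂ → ℝ} {c : ℝ} (hc : 0 < c)
    (hF0 : ∀ i, ∀ z ∈ S i, c ≤ F i z) {k : ℕ} :
    BB S k F → BB S k (fun i z => (F i z)⁻¹) := by
  have hne : ∀ i, ∀ z ∈ S i, F i z ≠ 0 := fun i z hz => (hc.trans_le (hF0 i z hz)).ne'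
  have hb : B0 S F → B0 S (fun i z => (F i z)⁻¹) := by
    intro hF
    refine ⟨fun i => (hF.1 i).inv (hne i), c⁻¹, fun i z hz => ?_⟩
    have h1 := hF0 i z hz
    rw [abs_of_pos (inv_pos.2 (hc.trans_le h1))]
    exact inv_anti₀ hc h1
  induction k with
  | zero => intro hF; exact hb hF
  | succ k ih =>
    intro hF
    have hi := ih hF.pred
    refine ⟨hb hF.1, ?_, ?_⟩
    · exact ((hF.2.1.mul hS (hi.mul hS hi)).neg hS).congr hS fun i z hz =>
        (px_inv (cd_at (hS i) (hF.1.1 i) hz) (hne i z hz)).symm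
    · exact ((hF.2.2.mul hS (hi.mul hS hi)).neg hS).congr hS fun i z hz =>
        (py_inv (cd_at (hS i) (hF.1.1 i) hz) (hne i z hz)).symm

/-! ### holomorphic functions -/

lemma fd_re {h : ℂ → ℂ} {z : ℂ} (hh : DifferentiableAt ℂ h z) (v : ℂ) :
    fderiv ℝ (fun w => (h w).re) z v = (deriv h z * v).re := by
  have h1 : HasFDerivAt h ((fderiv ℂ h z).restrictScalars ℝ) z := hh.hasFDerivAt.restrictScalars ℝ
  have h2 : HasFDerivAt (fun w => (h w).re)
      (Complex.reCLM.comp ((fderiv ℂ h z).restrictScalars ℝ)) z :=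
    Complex.reCLM.hasFDerivAt.comp z h1
  rw [h2.fderiv]
  have h3 : fderiv ℂ h z v = deriv h z * v := by
    rw [← fderiv_apply_one_eq_deriv, mul_comm, ← smul_eq_mul, ← map_smul]
    simp
  simp only [ContinuousLinearMap.coe_comp, Function.comp_apply,
    ContinuousLinearMap.coe_restrictScalars', Complex.reCLM_apply, h3]

lemma fd_im {h : ℂ → ℂ} {z : ℂ} (hh : DifferentiableAt ℂ h z) (v : ℂ) :
    fderiv ℝ (fun w => (h w).im) z v = (deriv h z * v).im := by
  have h1 : HasFDerivAt h ((fderiv ℂ h z).restrictScalars ℝ) z := hh.hasFDerivAt.restrictScalars ℝ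
  have h2 : HasFDerivAt (fun w => (h w).im)
      (Complex.imCLM.comp ((fderiv ℂ h z).restrictScalars ℝ)) z :=
    Complex.imCLM.hasFDerivAt.comp z h1
  rw [h2.fderiv]
  have h3 : fderiv ℂ h z v = deriv h z * v := by
    rw [← fderiv_apply_one_eq_deriv, mul_comm, ← smul_eq_mul, ← map_smul]
    simp
  simp only [ContinuousLinearMap.coe_comp, Function.comp_apply,
    ContinuousLinearMap.coe_restrictScalars', Complex.imCLM_apply, h3]

lemma px_re {h : ℂ → ℂ} {z : ℂ} (hh : DifferentiableAt ℂ h z) :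
    px (fun w => (h w).re) z = (deriv h z).re := by
  unfold px; rw [fd_re hh]; simp

lemma py_re {h : ℂ → ℂ} {z : ℂ} (hh : DifferentiableAt ℂ h z) :
    py (fun w => (h w).re) z = -(deriv h z).im := by
  unfold py; rw [fd_re hh]; simp

lemma px_im {h : ℂ → ℂ} {z : ℂ} (hh : DifferentiableAt ℂ h z) :
    px (fun w => (h w).im) z = (deriv h z).im := by
  unfold px; rw [fd_im hh]; simp

lemma py_im {h : ℂ → ℂ} {z : ℂ} (hh : DifferentiableAt ℂ h z) :
    py (fun w => (h w).im) z = (deriv h z).re := by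
  unfold py; rw [fd_im hh]; simp

lemma ent_iter {f : ℂ → ℂ} (hf : Differentiable ℂ f) (j : ℕ) :
    Differentiable ℂ (iteratedDeriv j f) :=
  (hf.contDiff (n := ⊤)).differentiable_iteratedDeriv j (by
    exact_mod_cast WithTop.coe_lt_top _)

lemma ent_cd {f : ℂ → ℂ} (hf : Differentiable ℂ f) : ContDiff ℝ ∞ f :=
  (hf.contDiff (n := ∞)).restrict_scalars ℝ

lemma BB_hol {S : ι → Set ℂ} (hS : ∀ i, IsOpen (S i)) {Γ : ι → ℂ → ℂ}
    (hΓ : ∀ i, Differentiable ℂ (Γ i))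
    (hb : ∀ j : ℕ, 1 ≤ j → ∃ C : ℝ, ∀ i, ∀ z ∈ S i, ‖iteratedDeriv j (Γ i) z‖ ≤ C) (k : ℕ) :
    ∀ j : ℕ, 1 ≤ j → BB S k (fun i z => (iteratedDeriv j (Γ i) z).re) ∧
      BB S k (fun i z => (iteratedDeriv j (Γ i) z).im) := by
  have h0 : ∀ j : ℕ, 1 ≤ j → B0 S (fun i z => (iteratedDeriv j (Γ i) z).re) ∧
      B0 S (fun i z => (iteratedDeriv j (Γ i) z).im) := by
    intro j hj
    obtain ⟨C, hC⟩ := hb j hj
    refine ⟨⟨fun i => ?_, C, fun i z hz => (Complex.abs_re_le_norm _).trans (hC i z hz)⟩,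
      ⟨fun i => ?_, C, fun i z hz => (Complex.abs_im_le_norm _).trans (hC i z hz)⟩⟩
    · exact (Complex.reCLM.contDiff.comp (ent_cd (ent_iter (hΓ i) j))).contDiffOn
    · exact (Complex.imCLM.contDiff.comp (ent_cd (ent_iter (hΓ i) j))).contDiffOn
  induction k with
  | zero => exact h0
  | succ k ih =>
    intro j hj
    have h1 := ih (j + 1) (by omega)
    have hd : ∀ i z, deriv (iteratedDeriv j (Γ i)) z = iteratedDeriv (j + 1) (Γ i) z := by
      intro i z; rw [iteratedDeriv_succ]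
    refine ⟨⟨(h0 j hj).1, ?_, ?_⟩, ⟨(h0 j hj).2, ?_, ?_⟩⟩
    · exact h1.1.congr hS fun i z hz => by rw [px_re (ent_iter (hΓ i) j z), hd]
    · exact (h1.2.neg hS).congr hS fun i z hz => by rw [py_re (ent_iter (hΓ i) j z), hd]
    · exact h1.2.congr hS fun i z hz => by rw [px_im (ent_iter (hΓ i) j z), hd]
    · exact h1.1.congr hS fun i z hz => by rw [py_im (ent_iter (hΓ i) j z), hd]

/-! ### compositions -/

lemma fd_lin (g : ℂ → ℝ) (z v : ℂ) : fderiv ℝ g z v = px g z * v.re + py g z * v.im := by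
  have h : v = (v.re : ℝ) • (1 : ℂ) + (v.im : ℝ) • Complex.I := by
    apply Complex.ext <;> simp
  conv_lhs => rw [h, map_add, map_smul, map_smul]
  unfold px py
  simp only [smul_eq_mul]
  ring

lemma fd_comp {g : ℂ → ℝ} {h : ℂ → ℂ} {z : ℂ} (hg : DifferentiableAt ℝ g (h z))
    (hh : DifferentiableAt ℂ h z) (v : ℂ) :
    fderiv ℝ (fun w => g (h w)) z v = fderiv ℝ g (h z) (deriv h z * v) := by
  have h1 : HasFDerivAt h ((fderiv ℂ h z).restrictScalars ℝ) z := hh.hasFDerivAt.restrictScalars ℝ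
  have h2 := hg.hasFDerivAt.comp z h1
  have h4 : fderiv ℝ (fun w => g (h w)) z =
    (fderiv ℝ g (h z)).comp ((fderiv ℂ h z).restrictScalars ℝ) := h2.fderiv
  rw [h4]
  have h3 : fderiv ℂ h z v = deriv h z * v := by
    rw [← fderiv_apply_one_eq_deriv, mul_comm, ← smul_eq_mul, ← map_smul]
    simp
  simp only [ContinuousLinearMap.coe_comp, Function.comp_apply,
    ContinuousLinearMap.coe_restrictScalars', h3]

lemma px_comp {g : ℂ → ℝ} {h : ℂ → ℂ} {z : ℂ} (hg : DifferentiableAt ℝ g (h z))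
    (hh : DifferentiableAt ℂ h z) :
    px (fun w => g (h w)) z = px g (h z) * (deriv h z).re + py g (h z) * (deriv h z).im := by
  have := fd_comp hg hh 1
  unfold px at *
  rw [this, mul_one, fd_lin]; rfl

lemma py_comp {g : ℂ → ℝ} {h : ℂ → ℂ} {z : ℂ} (hg : DifferentiableAt ℝ g (h z))
    (hh : DifferentiableAt ℂ h z) :
    py (fun w => g (h w)) z = -(px g (h z) * (deriv h z).im) + py g (h z) * (deriv h z).re := by
  have := fd_comp hg hh Complex.I
  have h2 : py (fun w => g (h w)) z = fderiv ℝ (fun w => g (h w)) z Complex.I := rfl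
  rw [h2, this, fd_lin]; simp

/-- the periodic smooth functions -/
def Gp (Ω : Set ℂ) (g : ℂ → ℝ) : Prop :=
  ContDiffOn ℝ ∞ g Ω ∧ ∀ z ∈ Ω, g (z + 2 * π * Complex.I) = g z

lemma Gp.px {Ω : Set ℂ} (hO : IsOpen Ω) {g : ℂ → ℝ} (h : Gp Ω g) : Gp Ω (px g) := by
  refine ⟨cd_px hO h.1, fun z hz => ?_⟩
  have h1 : (fun w => g (w + 2 * π * Complex.I)) =ᶠ[𝓝 z] g := by
    filter_upwards [hO.mem_nhds hz] with w hw using h.2 w hw
  have h2 := h1.fderiv_eq (𝕜 := ℝ)
  rw [fderiv_comp_add_right] at h2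
  unfold Pool.Agent.Y262.EG.px
  rw [h2]

lemma Gp.py {Ω : Set ℂ} (hO : IsOpen Ω) {g : ℂ → ℝ} (h : Gp Ω g) : Gp Ω (py g) := by
  refine ⟨cd_py hO h.1, fun z hz => ?_⟩
  have h1 : (fun w => g (w + 2 * π * Complex.I)) =ᶠ[𝓝 z] g := by
    filter_upwards [hO.mem_nhds hz] with w hw using h.2 w hw
  have h2 := h1.fderiv_eq (𝕜 := ℝ)
  rw [fderiv_comp_add_right] at h2
  unfold Pool.Agent.Y262.EG.py
  rw [h2]

lemma BB_comp {Ω : Set ℂ} (hO : IsOpen Ω) {S : ι → Set ℂ} (hS : ∀ i, IsOpen (S i))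
    {Γ : ι → ℂ → ℂ} (hΓ : ∀ i, Differentiable ℂ (Γ i)) (hm : ∀ i, ∀ z ∈ S i, Γ i z ∈ Ω)
    (hb : ∀ j : ℕ, 1 ≤ j → ∃ C : ℝ, ∀ i, ∀ z ∈ S i, ‖iteratedDeriv j (Γ i) z‖ ≤ C)
    (hg0 : ∀ g : ℂ → ℝ, Gp Ω g → ∃ C : ℝ, ∀ i, ∀ z ∈ S i, |g (Γ i z)| ≤ C) (k : ℕ) :
    ∀ g : ℂ → ℝ, Gp Ω g → BB S k (fun i z => g (Γ i z)) := by
  have h0 : ∀ g : ℂ → ℝ, Gp Ω g → B0 S (fun i z => g (Γ i z)) := by
    intro g hg
    exact ⟨fun i => hg.1.comp (ent_cd (hΓ i)).contDiffOn (hm i), hg0 g hg⟩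
  induction k with
  | zero => exact h0
  | succ k ih =>
    intro g hg
    have hx := ih _ (hg.px hO)
    have hy := ih _ (hg.py hO)
    have hG := BB_hol hS hΓ hb k 1 le_rfl
    have hd : ∀ i z, iteratedDeriv 1 (Γ i) z = deriv (Γ i) z := by
      intro i z; rw [iteratedDeriv_one]
    refine ⟨h0 g hg, ?_, ?_⟩
    · refine ((hx.mul hS hG.1).add hS (hy.mul hS hG.2)).congr hS fun i z hz => ?_
      rw [px_comp (cd_at hO hg.1 (hm i z hz)) (hΓ i z), hd]
    · refine (((hx.mul hS hG.2).neg hS).add hS (hy.mul hS hG.1)).congr hS fun i z hz => ?_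
      rw [py_comp (cd_at hO hg.1 (hm i z hz)) (hΓ i z), hd]


/-! ### logarithms -/

lemma px_log {f : ℂ → ℝ} {z : ℂ} (hf : DifferentiableAt ℝ f z) (h0 : f z ≠ 0) :
    px (fun w => Real.log (f w)) z = px f z * (f z)⁻¹ := by
  have h := (Real.hasDerivAt_log h0).comp_hasFDerivAt z hf.hasFDerivAt
  have h' : fderiv ℝ (fun w => Real.log (f w)) z = (f z)⁻¹ • fderiv ℝ f z := h.fderiv
  unfold px; rw [h']
  simp only [FunLike.coe_smul, Pi.smul_apply, smul_eq_mul]
  ring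

lemma py_log {f : ℂ → ℝ} {z : ℂ} (hf : DifferentiableAt ℝ f z) (h0 : f z ≠ 0) :
    py (fun w => Real.log (f w)) z = py f z * (f z)⁻¹ := by
  have h := (Real.hasDerivAt_log h0).comp_hasFDerivAt z hf.hasFDerivAt
  have h' : fderiv ℝ (fun w => Real.log (f w)) z = (f z)⁻¹ • fderiv ℝ f z := h.fderiv
  unfold py; rw [h']
  simp only [FunLike.coe_smul, Pi.smul_apply, smul_eq_mul]
  ring

lemma BB.const {S : ι → Set ℂ} (hS : ∀ i, IsOpen (S i)) {k : ℕ} :
    ∀ c : ℝ, BB S k (fun _ _ => c) := by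
  have hb : ∀ c : ℝ, B0 S (fun _ _ => c) := fun c =>
    ⟨fun i => contDiffOn_const, |c|, fun i z hz => le_rfl⟩
  induction k with
  | zero => exact hb
  | succ k ih =>
    intro c
    refine ⟨hb c, ?_, ?_⟩
    · refine (ih 0).congr hS fun i z hz => ?_
      unfold px; simp
    · refine (ih 0).congr hS fun i z hz => ?_
      unfold py; simp

lemma BB.log {S : ι → Set ℂ} (hS : ∀ i, IsOpen (S i)) {F : ι → ℂ → ℝ} {c : ℝ} (hc : 0 < c)
    (hF0 : ∀ i, ∀ z ∈ S i, c ≤ F i z) {k : ℕ} (hF : BB S k F) :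
    BB S k (fun i z => Real.log (F i z)) := by
  have hne : ∀ i, ∀ z ∈ S i, F i z ≠ 0 := fun i z hz => (hc.trans_le (hF0 i z hz)).ne'
  have hb : B0 S (fun i z => Real.log (F i z)) := by
    refine ⟨fun i => (hF.b0.1 i).log (hne i), ?_⟩
    obtain ⟨C, hC⟩ := hF.b0.2
    refine ⟨|Real.log c| + |Real.log C|, fun i z hz => ?_⟩
    have h1 := hF0 i z hz
    have h2 : F i z ≤ C := (le_abs_self _).trans (hC i z hz)
    have h3 : Real.log c ≤ Real.log (F i z) := Real.log_le_log hc h1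
    have h4 : Real.log (F i z) ≤ Real.log C := Real.log_le_log (hc.trans_le h1) h2
    rw [abs_le]
    constructor
    · have := neg_abs_le (Real.log c); have := abs_nonneg (Real.log C); linarith
    · have := le_abs_self (Real.log C); have := abs_nonneg (Real.log c); linarith
  cases k with
  | zero => exact hb
  | succ k =>
    have hi := BB.inv hS hc hF0 hF.pred
    refine ⟨hb, ?_, ?_⟩
    · exact (hF.2.1.mul hS hi).congr hS fun i z hz =>
        (px_log (cd_at (hS i) (hF.1.1 i) hz) (hne i z hz)).symm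
    · exact (hF.2.2.mul hS hi).congr hS fun i z hz =>
        (py_log (cd_at (hS i) (hF.1.1 i) hz) (hne i z hz)).symm

lemma log_norm (w : ℂ) : Real.log ‖w‖ = (1 / 2) * Real.log (w.re * w.re + w.im * w.im) := by
  have h1 : w.re * w.re + w.im * w.im = ‖w‖ ^ 2 := by
    rw [← Complex.normSq_apply, Complex.normSq_eq_norm_sq]
  rw [h1, Real.log_pow]
  push_cast
  ring

/-- the logarithm of the modulus of a holomorphic function: derivatives -/
lemma px_logn {h : ℂ → ℂ} {z : ℂ} (hh : DifferentiableAt ℂ h z) (h0 : h z ≠ 0) :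
    px (fun w => Real.log ‖h w‖) z = (deriv h z / h z).re := by
  have hre : DifferentiableAt ℝ (fun w => (h w).re) z :=
    (Complex.reCLM.hasFDerivAt.comp z (hh.hasFDerivAt.restrictScalars ℝ)).differentiableAt
  have him : DifferentiableAt ℝ (fun w => (h w).im) z :=
    (Complex.imCLM.hasFDerivAt.comp z (hh.hasFDerivAt.restrictScalars ℝ)).differentiableAt
  have hN : (h z).re * (h z).re + (h z).im * (h z).im ≠ 0 := by
    rw [← Complex.normSq_apply]; simpa using h0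
  have e : (fun w => Real.log ‖h w‖) = fun w =>
      (1 / 2 : ℝ) * Real.log ((h w).re * (h w).re + (h w).im * (h w).im) := by
    funext w; exact log_norm _
  have hN' : DifferentiableAt ℝ (fun w => (h w).re * (h w).re + (h w).im * (h w).im) z :=
    (hre.fun_mul hre).fun_add (him.fun_mul him)
  rw [e, px_mul (differentiableAt_const _) (hN'.log hN), px_log hN' hN,
    px_add (hre.fun_mul hre) (him.fun_mul him), px_mul hre hre, px_mul him him, px_re hh, px_im hh]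
  have h5 : px (fun _ => (1 / 2 : ℝ)) z = 0 := by unfold px; simp
  rw [h5, Complex.div_re, Complex.normSq_apply]
  field_simp
  ring

lemma py_logn {h : ℂ → ℂ} {z : ℂ} (hh : DifferentiableAt ℂ h z) (h0 : h z ≠ 0) :
    py (fun w => Real.log ‖h w‖) z = -(deriv h z / h z).im := by
  have hre : DifferentiableAt ℝ (fun w => (h w).re) z :=
    (Complex.reCLM.hasFDerivAt.comp z (hh.hasFDerivAt.restrictScalars ℝ)).differentiableAt
  have him : DifferentiableAt ℝ (fun w => (h w).im) z :=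
    (Complex.imCLM.hasFDerivAt.comp z (hh.hasFDerivAt.restrictScalars ℝ)).differentiableAt
  have hN : (h z).re * (h z).re + (h z).im * (h z).im ≠ 0 := by
    rw [← Complex.normSq_apply]; simpa using h0
  have e : (fun w => Real.log ‖h w‖) = fun w =>
      (1 / 2 : ℝ) * Real.log ((h w).re * (h w).re + (h w).im * (h w).im) := by
    funext w; exact log_norm _
  have hN' : DifferentiableAt ℝ (fun w => (h w).re * (h w).re + (h w).im * (h w).im) z :=
    (hre.fun_mul hre).fun_add (him.fun_mul him)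
  rw [e, py_mul (differentiableAt_const _) (hN'.log hN), py_log hN' hN,
    py_add (hre.fun_mul hre) (him.fun_mul him), py_mul hre hre, py_mul him him, py_re hh, py_im hh]
  have h5 : py (fun _ => (1 / 2 : ℝ)) z = 0 := by unfold py; simp
  rw [h5, Complex.div_im, Complex.normSq_apply]
  field_simp
  ring

lemma Lp2_logn {S : Set ℂ} (hS : IsOpen S) {h : ℂ → ℂ} (hh : Differentiable ℂ h)
    (h0 : ∀ z ∈ S, h z ≠ 0) {z : ℂ} (hz : z ∈ S) : Lp2 (fun w => Real.log ‖h w‖) z = 0 := by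
  have hq : DifferentiableAt ℂ (fun w => deriv h w / h w) z := by
    have h1 : Differentiable ℂ (deriv h) := by
      have := ent_iter hh 1
      rwa [iteratedDeriv_one] at this
    exact (h1 z).fun_div (hh z) (h0 z hz)
  unfold Lp2
  rw [px_congr hS (f := px fun w => Real.log ‖h w‖) (g := fun w => (deriv h w / h w).re)
      (fun w hw => px_logn (hh w) (h0 w hw)) hz,
    py_congr hS (f := py fun w => Real.log ‖h w‖) (g := fun w => -(deriv h w / h w).im)
      (fun w hw => py_logn (hh w) (h0 w hw)) hz, px_re hq, py_neg, py_im hq]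
  ring

lemma Lp2_comp {Ω S : Set ℂ} (hO : IsOpen Ω) (hS : IsOpen S) {g : ℂ → ℝ}
    (hg : ContDiffOn ℝ ∞ g Ω) {h : ℂ → ℂ} (hh : Differentiable ℂ h) (hm : ∀ z ∈ S, h z ∈ Ω)
    {z : ℂ} (hz : z ∈ S) :
    Lp2 (fun w => g (h w)) z = ((deriv h z).re ^ 2 + (deriv h z).im ^ 2) * Lp2 g (h z) := by
  have h1 : Differentiable ℂ (deriv h) := by
    have := ent_iter hh 1
    rwa [iteratedDeriv_one] at this
  have hre : DifferentiableAt ℝ (fun w => (deriv h w).re) z :=
    (Complex.reCLM.hasFDerivAt.comp z ((h1 z).hasFDerivAt.restrictScalars ℝ)).differentiableAt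
  have him : DifferentiableAt ℝ (fun w => (deriv h w).im) z :=
    (Complex.imCLM.hasFDerivAt.comp z ((h1 z).hasFDerivAt.restrictScalars ℝ)).differentiableAt
  have hx : DifferentiableAt ℝ (px g) (h z) := cd_at hO (cd_px hO hg) (hm z hz)
  have hy : DifferentiableAt ℝ (py g) (h z) := cd_at hO (cd_py hO hg) (hm z hz)
  have hhr : DifferentiableAt ℝ h z := ((hh z).hasFDerivAt.restrictScalars ℝ).differentiableAt
  have hx' : DifferentiableAt ℝ (fun w => px g (h w)) z := hx.comp z hhr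
  have hy' : DifferentiableAt ℝ (fun w => py g (h w)) z := hy.comp z hhr
  unfold Lp2
  rw [px_congr hS (f := px fun w => g (h w))
      (g := fun w => px g (h w) * (deriv h w).re + py g (h w) * (deriv h w).im)
      (fun w hw => px_comp (cd_at hO hg (hm w hw)) (hh w)) hz,
    py_congr hS (f := py fun w => g (h w))
      (g := fun w => -(px g (h w) * (deriv h w).im) + py g (h w) * (deriv h w).re)
      (fun w hw => py_comp (cd_at hO hg (hm w hw)) (hh w)) hz,
    px_add (hx'.fun_mul hre) (hy'.fun_mul him), px_mul hx' hre, px_mul hy' him,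
    px_comp hx (hh z), px_comp hy (hh z), px_re (h1 z), px_im (h1 z),
    py_add (hx'.fun_mul him).fun_neg (hy'.fun_mul hre), py_neg, py_mul hx' him, py_mul hy' hre,
    py_comp hx (hh z), py_comp hy (hh z), py_re (h1 z), py_im (h1 z)]
  ring

lemma Lp2_add {S : Set ℂ} (hS : IsOpen S) {f g : ℂ → ℝ} (hf : ContDiffOn ℝ ∞ f S)
    (hg : ContDiffOn ℝ ∞ g S) {z : ℂ} (hz : z ∈ S) :
    Lp2 (fun w => f w + g w) z = Lp2 f z + Lp2 g z := by
  unfold Lp2
  rw [px_congr hS (f := px fun w => f w + g w) (g := fun w => px f w + px g w)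
      (fun w hw => px_add (cd_at hS hf hw) (cd_at hS hg hw)) hz,
    py_congr hS (f := py fun w => f w + g w) (g := fun w => py f w + py g w)
      (fun w hw => py_add (cd_at hS hf hw) (cd_at hS hg hw)) hz,
    px_add (cd_at hS (cd_px hS hf) hz) (cd_at hS (cd_px hS hg) hz),
    py_add (cd_at hS (cd_py hS hf) hz) (cd_at hS (cd_py hS hg) hz)]
  ring


/-! ### periodicity and compactness -/

section Main

variable {M P : Type} [MetricSpace M] [CompactSpace M] [MetricSpace P] [CompactSpace P]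

lemma phi_per {Ω : Set ℂ} {φ : ℂ → ℝ} {pr : ℂ → M} {q : Y → P} {c : ℝ → ℂ} (hU : IsUT Ω φ pr q)
    (hG : Gc Ω φ pr c) : Gp Ω φ := by
  refine ⟨hU.smooth, fun z hz => ?_⟩
  have hw : z + 2 * π * Complex.I ∈ Ω := (hG.trm z).2 hz
  obtain ⟨θ', r, γ, hr, hball, hγ, hγz, hγ', -⟩ :=
    hU.deck z hz (z + 2 * π * Complex.I) hw (hG.trp z hz).symm 0
  obtain ⟨r', hr', hb', hinj⟩ := hU.injp (z + 2 * π * Complex.I) hw
  simp only at hr hball hγ hγz hγ'
  have hcont : ContinuousAt γ z :=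
    (hγ.differentiableAt (Metric.ball_mem_nhds z hr)).continuousAt
  have hnear : γ =ᶠ[𝓝 z] fun ζ => ζ + 2 * π * Complex.I := by
    have h1 : ∀ᶠ ζ in 𝓝 z, γ ζ ∈ Metric.ball (z + 2 * π * Complex.I) r' :=
      hcont (by rw [hγz]; exact Metric.ball_mem_nhds _ hr')
    have h2 : ∀ᶠ ζ in 𝓝 z, ζ + 2 * π * Complex.I ∈ Metric.ball (z + 2 * π * Complex.I) r' := by
      have : ContinuousAt (fun ζ : ℂ => ζ + 2 * π * Complex.I) z := by fun_prop
      exact this (Metric.ball_mem_nhds _ hr')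
    filter_upwards [h1, h2, Metric.ball_mem_nhds z hr, hU.opn.mem_nhds hz] with ζ a b hζ hζΩ
    exact hinj a b ((hγ' ζ hζ).2.1.trans (hG.trp ζ hζΩ).symm)
  have hd : deriv γ z = 1 := by rw [hnear.deriv_eq]; simp
  have h3 := (hγ' z (Metric.mem_ball_self hr)).2.2.2
  rw [hd, hγz] at h3
  simpa using h3

lemma trm_int {Ω : Set ℂ} (ht : ∀ z : ℂ, z + 2 * π * Complex.I ∈ Ω ↔ z ∈ Ω) (k : ℤ) :
    ∀ z : ℂ, z + k * (2 * π * Complex.I) ∈ Ω ↔ z ∈ Ω := by
  induction k using Int.induction_on with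
  | zero => intro z; simp
  | succ i ih =>
    intro z
    have e : z + ((i + 1 : ℤ) : ℂ) * (2 * π * Complex.I) =
      (z + (i : ℤ) * (2 * π * Complex.I)) + 2 * π * Complex.I := by push_cast; ring
    rw [e, ht]; exact ih z
  | pred i ih =>
    intro z
    have e : z + ((-i : ℤ) : ℂ) * (2 * π * Complex.I) =
      (z + ((-i - 1 : ℤ) : ℂ) * (2 * π * Complex.I)) + 2 * π * Complex.I := by push_cast; ring
    rw [← ht, ← e]; exact ih z

lemma Gp_int {Ω : Set ℂ} (ht : ∀ z : ℂ, z + 2 * π * Complex.I ∈ Ω ↔ z ∈ Ω) {g : ℂ → ℝ}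
    (hg : Gp Ω g) (k : ℤ) : ∀ z ∈ Ω, g (z + k * (2 * π * Complex.I)) = g z := by
  induction k using Int.induction_on with
  | zero => intro z hz; simp
  | succ i ih =>
    intro z hz
    have e : z + ((i + 1 : ℤ) : ℂ) * (2 * π * Complex.I) =
      (z + (i : ℤ) * (2 * π * Complex.I)) + 2 * π * Complex.I := by push_cast; ring
    rw [e, hg.2 _ ((trm_int ht i z).2 hz)]; exact ih z hz
  | pred i ih =>
    intro z hz
    have e : z + ((-i : ℤ) : ℂ) * (2 * π * Complex.I) =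
      (z + ((-i - 1 : ℤ) : ℂ) * (2 * π * Complex.I)) + 2 * π * Complex.I := by push_cast; ring
    rw [← hg.2 _ ((trm_int ht _ z).2 hz), ← e]; exact ih z hz

lemma c_int {c : ℝ → ℂ} (hc : ∀ t, c (t + 2 * π) = c t + 2 * π * Complex.I) (k : ℤ) :
    ∀ t, c (t + k * (2 * π)) = c t + k * (2 * π * Complex.I) := by
  induction k using Int.induction_on with
  | zero => intro t; simp
  | succ i ih =>
    intro t
    have e : t + ((i + 1 : ℤ) : ℝ) * (2 * π) = (t + (i : ℤ) * (2 * π)) + 2 * π := by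
      push_cast; ring
    rw [e, hc, ih]; push_cast; ring
  | pred i ih =>
    intro t
    have e : t + ((-i : ℤ) : ℝ) * (2 * π) = (t + ((-i - 1 : ℤ) : ℝ) * (2 * π)) + 2 * π := by
      push_cast; ring
    have h1 := ih t
    rw [e, hc] at h1
    have h2 : c (t + ((-i - 1 : ℤ) : ℝ) * (2 * π)) =
      c t + ((-i : ℤ) : ℂ) * (2 * π * Complex.I) - 2 * π * Complex.I := by
      rw [← h1]; ring
    rw [h2]; push_cast; ring

lemma red {c : ℝ → ℂ} (hc : ∀ t, c (t + 2 * π) = c t + 2 * π * Complex.I) {ρ : ℝ} {z : ℂ} {t : ℝ}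
    (h : dist z (c t) ≤ ρ) : ∃ z' ∈ Metric.cthickening ρ (c '' Icc 0 (2 * π)), ∃ k : ℤ,
      z = z' + k * (2 * π * Complex.I) := by
  have hpi : (0 : ℝ) < 2 * π := by positivity
  set k : ℤ := ⌊t / (2 * π)⌋ with hk
  set s : ℝ := t - k * (2 * π) with hs
  have h1 : (k : ℝ) ≤ t / (2 * π) := Int.floor_le _
  have h2 : t / (2 * π) < k + 1 := Int.lt_floor_add_one _
  have h3 : k * (2 * π) ≤ t := by rwa [le_div_iff₀ hpi] at h1
  have h4 : t < (k + 1) * (2 * π) := by rwa [div_lt_iff₀ hpi] at h2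
  have hsI : s ∈ Icc 0 (2 * π) := ⟨by rw [hs]; linarith, by rw [hs]; linarith⟩
  have hct : c t = c s + k * (2 * π * Complex.I) := by
    rw [← c_int hc k s, hs]; congr 1; ring
  refine ⟨z - k * (2 * π * Complex.I), ?_, k, by ring⟩
  refine Metric.mem_cthickening_of_dist_le _ (c s) ρ _ (mem_image_of_mem c hsI) ?_
  rw [dist_eq_norm] at h ⊢
  rw [hct] at h
  calc ‖z - k * (2 * π * Complex.I) - c s‖ = ‖z - (c s + k * (2 * π * Complex.I))‖ := by
        congr 1; ring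
    _ ≤ ρ := h

theorem stBds : StBds := by
  intro M P _ _ _ _ Ω φ pr q c Γ hU hG hA hneg
  have hO := hU.opn
  have hφ : Gp Ω φ := phi_per hU hG
  have ht := hG.trm
  -- compactness
  have hK0c : IsCompact (c '' Icc 0 (2 * π)) := isCompact_Icc.image hG.sm.continuous
  have hK0s : c '' Icc 0 (2 * π) ⊆ Ω := by
    rintro _ ⟨t, -, rfl⟩; exact hG.mem t
  obtain ⟨ρ, hρ, hK1s⟩ := hK0c.exists_cthickening_subset_open hO hK0s
  have hK1c : IsCompact (Metric.cthickening ρ (c '' Icc 0 (2 * π))) := hK0c.cthickening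
  set K1 := Metric.cthickening ρ (c '' Icc 0 (2 * π)) with hK1
  have hmem : ∀ (z : ℂ) (t : ℝ), dist z (c t) ≤ ρ → z ∈ Ω := by
    intro z t h
    obtain ⟨z', hz', k, rfl⟩ := red hG.per h
    exact (trm_int ht k z').2 (hK1s hz')
  have hval : ∀ g : ℂ → ℝ, Gp Ω g → ∀ (z : ℂ) (t : ℝ), dist z (c t) ≤ ρ →
      ∃ z' ∈ K1, g z = g z' := by
    intro g hg z t h
    obtain ⟨z', hz', k, rfl⟩ := red hG.per h
    exact ⟨z', hz', Gp_int ht hg k z' (hK1s hz')⟩
  have hbd : ∀ g : ℂ → ℝ, Gp Ω g → ∃ C : ℝ, ∀ (z : ℂ) (t : ℝ), dist z (c t) ≤ ρ → |g z| ≤ C := by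
    intro g hg
    obtain ⟨C, hC⟩ := hK1c.exists_bound_of_continuousOn (hg.1.continuousOn.mono hK1s)
    refine ⟨C, fun z t h => ?_⟩
    obtain ⟨z', hz', e⟩ := hval g hg z t h
    rw [e]; exact hC z' hz'
  -- the lower bound of the Laplacian
  have hL : Gp Ω (Lp2 φ) := by
    refine ⟨((hφ.px hO).px hO).1.add ((hφ.py hO).py hO).1, fun z hz => ?_⟩
    unfold Lp2
    rw [((hφ.px hO).px hO).2 z hz, ((hφ.py hO).py hO).2 z hz]
  have hLpos : ∀ z ∈ Ω, 0 < Lp2 φ z := by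
    intro z hz
    have h1 := hneg z hz
    unfold curv at h1
    have h2 : 0 < Real.exp (-2 * φ z) * (px (px φ) z + py (py φ) z) := by linarith
    exact (pos_iff_pos_of_mul_pos h2).1 (Real.exp_pos _)
  have hK1ne : K1.Nonempty :=
    ⟨c 0, Metric.self_subset_cthickening _ ⟨0, ⟨le_rfl, by positivity⟩, rfl⟩⟩
  obtain ⟨z0, hz0, hmin⟩ := hK1c.exists_isMinOn hK1ne (hL.1.continuousOn.mono hK1s)
  set κ := Lp2 φ z0 with hκ
  have hκp : 0 < κ := hLpos z0 (hK1s hz0)
  have hlow : ∀ (z : ℂ) (t : ℝ), dist z (c t) ≤ ρ → κ ≤ Lp2 φ z := by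
    intro z t h
    obtain ⟨z', hz', e⟩ := hval _ hL z t h
    rw [e]; exact hmin hz'
  -- the speed of the curve
  obtain ⟨B, hB⟩ := hbd φ hφ
  set m : ℝ := Real.exp (-B) with hm
  have hmp : 0 < m := Real.exp_pos _
  have hspeed : ∀ t, m ≤ ‖deriv c t‖ := by
    intro t
    have h1 := hG.unit t
    have h2 : Real.log ‖deriv c t‖ = -φ (c t) := by linarith
    have h3 : ‖deriv c t‖ = Real.exp (-φ (c t)) := by
      rw [← h2, Real.exp_log (norm_pos_iff.2 (hG.ne t))]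
    rw [h3, hm]
    refine Real.exp_le_exp.2 (neg_le_neg ?_)
    exact (le_abs_self _).trans (hB (c t) t (by simpa using hρ.le))
  -- constants of the approximation
  obtain ⟨C0, hC0⟩ := hA.close 0 1
  obtain ⟨C0', hC0'⟩ := hA.close 1 1
  obtain ⟨C1, hC1⟩ := hA.bd 1 le_rfl
  obtain ⟨C2, hC2⟩ := hA.bd 2 (by norm_num)
  have hst : ∀ n : ℕ, Convex ℝ {z : ℂ | |z.re| ≤ 1 / ((n : ℝ) + 1)} := by
    intro n
    have : {z : ℂ | |z.re| ≤ 1 / ((n : ℝ) + 1)} =
      Complex.reCLM ⁻¹' (Icc (-(1 / ((n : ℝ) + 1))) (1 / ((n : ℝ) + 1))) := by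
      ext z; simp [abs_le]
    rw [this]
    exact (convex_Icc _ _).linear_preimage Complex.reCLM.toLinearMap
  have hC1p : 0 ≤ C1 := (norm_nonneg _).trans (hC1 0 0 (by simp))
  have hC2p : 0 ≤ C2 := (norm_nonneg _).trans (hC2 0 0 (by simp))
  have hC0p : 0 ≤ C0 := by
    have := (norm_nonneg _).trans (hC0 0 0); simpa using this
  have hC0p' : 0 ≤ C0' := by
    have := (norm_nonneg _).trans (hC0' 0 0); simpa using this
  have hnorm : ∀ z : ℂ, ‖z - (z.im : ℂ) * Complex.I‖ = |z.re| := by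
    intro z
    have : z - (z.im : ℂ) * Complex.I = (z.re : ℂ) := by
      apply Complex.ext <;> simp
    rw [this, Complex.norm_real]; rfl
  have hdist : ∀ (n : ℕ) (z : ℂ), |z.re| ≤ 1 / ((n : ℝ) + 1) →
      dist (Γ n z) (c z.im) ≤ (C0 + C1) / ((n : ℝ) + 1) := by
    intro n z hz
    have hn : (0 : ℝ) < (n : ℝ) + 1 := by positivity
    have h1 := (hst n).norm_image_sub_le_of_norm_deriv_le (f := Γ n) (C := C1)
      (x := (z.im : ℂ) * Complex.I) (y := z) (fun w _ => hA.ent n w)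
      (fun w hw => by have := hC1 n w hw; rwa [iteratedDeriv_one] at this)
      (by simp; positivity) hz
    rw [hnorm] at h1
    have h2 := hC0 n z.im
    simp only [iteratedDeriv_zero, pow_one] at h2
    have h3 : C1 * |z.re| ≤ C1 * (1 / ((n : ℝ) + 1)) := mul_le_mul_of_nonneg_left hz hC1p
    calc dist (Γ n z) (c z.im) = ‖(Γ n z - Γ n (z.im * Complex.I)) +
          (Γ n (z.im * Complex.I) - c z.im)‖ := by rw [dist_eq_norm]; congr 1; ring
      _ ≤ C1 * (1 / ((n : ℝ) + 1)) + C0 / ((n : ℝ) + 1) :=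
        (norm_add_le _ _).trans (add_le_add (h1.trans h3) h2)
      _ = (C0 + C1) / ((n : ℝ) + 1) := by ring
  have hder : ∀ (n : ℕ) (z : ℂ), |z.re| ≤ 1 / ((n : ℝ) + 1) →
      m - (C0' + C2) / ((n : ℝ) + 1) ≤ ‖deriv (Γ n) z‖ := by
    intro n z hz
    have hn : (0 : ℝ) < (n : ℝ) + 1 := by positivity
    have hde : Differentiable ℂ (deriv (Γ n)) := by
      have := ent_iter (hA.ent n) 1
      rwa [iteratedDeriv_one] at this
    have h1 := (hst n).norm_image_sub_le_of_norm_deriv_le (f := deriv (Γ n)) (C := C2)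
      (x := (z.im : ℂ) * Complex.I) (y := z) (fun w _ => hde w)
      (fun w hw => by
        have := hC2 n w hw
        rwa [iteratedDeriv_succ, iteratedDeriv_one] at this)
      (by simp; positivity) hz
    rw [hnorm] at h1
    have h2 := hC0' n z.im
    rw [iteratedDeriv_one, iteratedDeriv_one, pow_one] at h2
    have h4 : deriv (fun t : ℝ => Γ n (t * Complex.I)) z.im =
        deriv (Γ n) ((z.im : ℂ) * Complex.I) * Complex.I := by
      have h5 : HasDerivAt (fun t : ℝ => (t : ℂ) * Complex.I) Complex.I z.im := by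
        simpa using (Complex.ofRealCLM.hasDerivAt (x := z.im)).mul_const Complex.I
      exact ((hA.ent n _).hasDerivAt.comp z.im h5).deriv
    rw [h4] at h2
    have h6 : m ≤ ‖deriv (Γ n) ((z.im : ℂ) * Complex.I)‖ + C0' / ((n : ℝ) + 1) := by
      have h7 := hspeed z.im
      have h8 : ‖deriv c z.im‖ ≤ ‖deriv (Γ n) ((z.im : ℂ) * Complex.I) * Complex.I‖ +
          ‖deriv (Γ n) ((z.im : ℂ) * Complex.I) * Complex.I - deriv c z.im‖ := by
        have := norm_sub_le (deriv (Γ n) ((z.im : ℂ) * Complex.I) * Complex.I)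
          (deriv (Γ n) ((z.im : ℂ) * Complex.I) * Complex.I - deriv c z.im)
        simpa using this
      rw [norm_mul, Complex.norm_I, mul_one] at h8
      linarith
    have h9 : ‖deriv (Γ n) ((z.im : ℂ) * Complex.I)‖ ≤ ‖deriv (Γ n) z‖ + C2 / ((n : ℝ) + 1) := by
      have h3 : C2 * |z.re| ≤ C2 * (1 / ((n : ℝ) + 1)) := mul_le_mul_of_nonneg_left hz hC2p
      have := norm_sub_le (deriv (Γ n) z) (deriv (Γ n) z - deriv (Γ n) ((z.im : ℂ) * Complex.I))
      rw [sub_sub_cancel] at this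
      have h10 : C2 * (1 / ((n : ℝ) + 1)) = C2 / ((n : ℝ) + 1) := by ring
      linarith
    have h11 : (C0' + C2) / ((n : ℝ) + 1) = C0' / ((n : ℝ) + 1) + C2 / ((n : ℝ) + 1) := by ring
    linarith
  obtain ⟨N, hN⟩ := exists_nat_ge (max ((C0 + C1) / ρ) (2 * (C0' + C2) / m))
  have hNn : ∀ n : ℕ, N ≤ n → (C0 + C1) / ((n : ℝ) + 1) ≤ ρ ∧
      (C0' + C2) / ((n : ℝ) + 1) ≤ m / 2 := by
    intro n hn
    have hn0 : (0 : ℝ) < (n : ℝ) + 1 := by positivity
    have h1 : (N : ℝ) ≤ n := by exact_mod_cast hn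
    constructor
    · have h2 := (le_max_left _ _).trans hN
      rw [div_le_iff₀ hρ] at h2
      rw [div_le_iff₀ hn0]
      nlinarith
    · have h2 := (le_max_right _ _).trans hN
      rw [div_le_iff₀ hmp] at h2
      rw [div_le_iff₀ hn0]
      nlinarith
  -- the family
  let ι : Type := {n : ℕ // N ≤ n}
  let S : ι → Set ℂ := fun i => Sx 0 (1 / ((i.1 : ℝ) + 1))
  let G : ι → ℂ → ℂ := fun i => Γ i.1
  have hS : ∀ i, IsOpen (S i) := by
    intro i
    have : Continuous fun z : ℂ => |z.re - 0| := by fun_prop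
    exact isOpen_lt this continuous_const
  have hSle : ∀ i, ∀ z ∈ S i, |z.re| ≤ 1 / ((i.1 : ℝ) + 1) := by
    intro i z hz
    have : |z.re - 0| < 1 / ((i.1 : ℝ) + 1) := hz
    rw [sub_zero] at this
    exact this.le
  have hGe : ∀ i, Differentiable ℂ (G i) := fun i => hA.ent i.1
  have hdi : ∀ i, ∀ z ∈ S i, dist (G i z) (c z.im) ≤ ρ := fun i z hz =>
    (hdist i.1 z (hSle i z hz)).trans (hNn i.1 i.2).1
  have hGm : ∀ i, ∀ z ∈ S i, G i z ∈ Ω := fun i z hz => hmem _ _ (hdi i z hz)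
  have hGd : ∀ i, ∀ z ∈ S i, m / 2 ≤ ‖deriv (G i) z‖ := fun i z hz => by
    have h1 := hder i.1 z (hSle i z hz)
    have h2 := (hNn i.1 i.2).2
    have h3 : m - (C0' + C2) / ((i.1 : ℝ) + 1) ≤ ‖deriv (G i) z‖ := h1
    linarith
  have hGb : ∀ j : ℕ, 1 ≤ j → ∃ C : ℝ, ∀ i, ∀ z ∈ S i, ‖iteratedDeriv j (G i) z‖ ≤ C := by
    intro j hj
    obtain ⟨C, hC⟩ := hA.bd j hj
    exact ⟨C, fun i z hz => hC i.1 z (hSle i z hz)⟩
  have hgb : ∀ g : ℂ → ℝ, Gp Ω g → ∃ C : ℝ, ∀ i, ∀ z ∈ S i, |g (G i z)| ≤ C := by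
    intro g hg
    obtain ⟨C, hC⟩ := hbd g hg
    exact ⟨C, fun i z hz => hC _ _ (hdi i z hz)⟩
  have hF1 : BB S 3 (fun i z => φ (G i z)) := BB_comp hO hS hGe hGm hGb hgb 3 φ hφ
  have hF2 : BB S 3 (fun i z => Real.log ‖deriv (G i) z‖) := by
    have h1 := BB_hol hS hGe hGb 3 1 le_rfl
    have h2 := ((h1.1.mul hS h1.1).add hS (h1.2.mul hS h1.2))
    have h3 : ∀ i, ∀ z ∈ S i, (m / 2) ^ 2 ≤ (iteratedDeriv 1 (G i) z).re *
        (iteratedDeriv 1 (G i) z).re + (iteratedDeriv 1 (G i) z).im *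
        (iteratedDeriv 1 (G i) z).im := by
      intro i z hz
      rw [← Complex.normSq_apply, Complex.normSq_eq_norm_sq, iteratedDeriv_one]
      exact pow_le_pow_left₀ (by positivity) (hGd i z hz) 2
    have h4 := BB.log hS (by positivity : 0 < (m / 2) ^ 2) h3 h2
    refine ((BB.const hS (1 / 2 : ℝ)).mul hS h4).congr hS fun i z hz => ?_
    rw [log_norm, iteratedDeriv_one]
  have hF : BB S 3 (fun i => Pb φ (G i)) := hF1.add hS hF2
  obtain ⟨Ca, hCa⟩ := hF.2.1.2.1.b0.2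
  obtain ⟨Cb, hCb⟩ := hF.2.2.2.1.b0.2
  obtain ⟨Cc, hCc⟩ := hF.2.1.2.1.2.1.b0.2
  obtain ⟨Cd, hCd⟩ := hF.2.2.2.2.b0.2
  refine ⟨N, (m / 2) ^ 2 * κ / 4, |Ca| + |Cb| + |Cc| + |Cd| + 1, by positivity, by positivity,
    fun n hn => ?_⟩
  have ha := abs_nonneg Ca
  have hb := abs_nonneg Cb
  have hc := abs_nonneg Cc
  have hd := abs_nonneg Cd
  refine ⟨hF.b0.1 ⟨n, hn⟩, fun z hz => ?_, fun z hz => ?_⟩
  · have h1 : deriv (Γ n) (z + 2 * π * Complex.I) = deriv (Γ n) z := by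
      have h2 : (fun w => Γ n (w + 2 * π * Complex.I)) = fun w => Γ n w + 2 * π * Complex.I := by
        funext w; exact hA.per n w
      have h3 := congrArg (fun f => deriv f z) h2
      simp only [deriv_add_const] at h3
      rwa [deriv_comp_add_const] at h3
    unfold Pb
    rw [h1, hA.per, hφ.2 _ (hGm ⟨n, hn⟩ z hz)]
  · have e1 : Lp2 (Pb φ (Γ n)) z =
        ((deriv (Γ n) z).re ^ 2 + (deriv (Γ n) z).im ^ 2) * Lp2 φ (Γ n z) := by
      have hde : Differentiable ℂ (deriv (Γ n)) := by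
        have := ent_iter (hA.ent n) 1
        rwa [iteratedDeriv_one] at this
      have h1 := Lp2_add (hS ⟨n, hn⟩) (hF1.b0.1 ⟨n, hn⟩) (hF2.b0.1 ⟨n, hn⟩) hz
      have h2 := Lp2_comp hO (hS ⟨n, hn⟩) hφ.1 (hA.ent n) (hGm ⟨n, hn⟩) hz
      have h3 := Lp2_logn (hS ⟨n, hn⟩) hde (fun w hw => by
        have := hGd ⟨n, hn⟩ w hw
        intro h0
        have h4 : deriv (G ⟨n, hn⟩) w = 0 := h0
        rw [h4, norm_zero] at this
        linarith) hz
      have h5 : Lp2 (Pb φ (Γ n)) z =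
        Lp2 (fun w => φ (Γ n w)) z + Lp2 (fun w => Real.log ‖deriv (Γ n) w‖) z := h1
      rw [h5, h2, h3, add_zero]
    have e2 : (m / 2) ^ 2 ≤ (deriv (Γ n) z).re ^ 2 + (deriv (Γ n) z).im ^ 2 := by
      have h1 := pow_le_pow_left₀ (by positivity) (hGd ⟨n, hn⟩ z hz) 2
      rw [← Complex.normSq_eq_norm_sq, Complex.normSq_apply] at h1
      have h2 : (m / 2) ^ 2 ≤ (deriv (Γ n) z).re * (deriv (Γ n) z).re +
        (deriv (Γ n) z).im * (deriv (Γ n) z).im := h1
      nlinarith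
    have e3 : κ ≤ Lp2 φ (Γ n z) := hlow _ _ (hdi ⟨n, hn⟩ z hz)
    have f1 := hCa ⟨n, hn⟩ z hz
    have f2 := hCb ⟨n, hn⟩ z hz
    have f3 := hCc ⟨n, hn⟩ z hz
    have f4 := hCd ⟨n, hn⟩ z hz
    have g1 := f1.trans (le_abs_self Ca)
    have g2 := f2.trans (le_abs_self Cb)
    have g3 := f3.trans (le_abs_self Cc)
    have g4 := f4.trans (le_abs_self Cd)
    refine ⟨?_, ?_, ?_, ?_, ?_⟩
    · rw [e1]
      have := mul_le_mul e2 e3 hκp.le (by positivity)
      linarith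
    · have h1 : Lp2 (Pb φ (Γ n)) z = px (px (Pb φ (Γ n))) z + py (py (Pb φ (Γ n))) z := rfl
      rw [h1]
      have h2 := (le_abs_self _).trans g1
      have h3 := (le_abs_self _).trans g4
      have h4 : px (px (Pb φ (Γ n))) z ≤ |Ca| := h2
      have h5 : py (py (Pb φ (Γ n))) z ≤ |Cd| := h3
      linarith
    · have h4 : |px (px (Pb φ (Γ n))) z| ≤ |Ca| := g1
      linarith
    · have h4 : |px (py (Pb φ (Γ n))) z| ≤ |Cb| := g2
      linarith
    · have h4 : |px (px (px (Pb φ (Γ n)))) z| ≤ |Cc| := g3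
      linarith

end Main

end Pool.Agent.H355.GV
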